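import Pool.Agent.H213R3.DomGap

/-!
# Decomposable circuits cannot certify that a partial table has no small circuits

A decomposable circuit (`Circ`) reads the entries `T x` in `{0,1,*}` of a partial truth table. It
has unrestricted OR gates (nondeterminism), AND gates whose inputs depend on disjoint sets of
entries, and decision gates (with three outcomes) whose entry is not used below. The leaves may be
arbitrary functions of `N / (64 * 4 ^ g)` entries, where `N = 2 ^ n`. Nondeterministic read-once
branching programs are a special case.

Let `D` be any set of positions. We show that such circuits cannot certify the no-instances of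
Partial MCSP among the tables which are defined exactly on `D`: if a circuit rejects all tables
on `D` which have circuits of size at most `s₁` and does not reject many others, then it
is exponentially large. Here `s₁` is any number from `(log N) ^ O(1)` to `N / (log N) ^ O(1)`,
and a table is exempt if its circuit size is at most `s₂`; with `M = 2 ^ (l + g)` and
`x ≤ M * |D| / N` the circuit may also reject `2 ^ x - 2 ^ (x - 2 ^ (l - g - 2)) - ...` tables on
`D` of size greater than `s₂`. In particular, if `M = N` and `x = |D|`, then a small circuit which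
rejects all easy tables on `D` accepts less than a fraction `2 ^ (-N / (log N) ^ O(1))` of all the
tables on `D`.
-/

namespace Pool.Agent.Results.MP_d2e5f8_lc.Conondeterminism

open Pool.Agent.H589R2 Pool.Agent.H561R2.RO Pool.Agent.H213R3

theorem result (n k w l g s₁ s₂ S x : ℕ) (hn : n ≤ 2 ^ k) (hg : 3 * g + 6 ≤ l) (hl : l + g ≤ n)
    (hs₁ : 2 ^ (l + 2 * k + 7) ≤ s₁) (hw : n + s₂ + 1 ≤ 2 ^ w)
    (D : Finset (Fin n → Bool)) (hx : x * 2 ^ (n - (l + g)) ≤ D.card)
    (C : Circ (Fin n → Bool) (Option Bool) S) (out : Fin S)
    (hleaf : C.LeafLE (2 ^ (n - 2 * g - 6)))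
    (hrej : ∀ T : (Fin n → Bool) → Option Bool, (∀ v, (T v).isSome = true ↔ v ∈ D) →
      PartialMCSP n s₁ T → ¬C.Acc T out)
    (hfew : {T : (Fin n → Bool) → Option Bool | (∀ v, (T v).isSome = true ↔ v ∈ D) ∧
        ¬PartialMCSP n s₂ T ∧ ¬C.Acc T out}.ncard +
      2 ^ ((2 * w + 3) * (s₂ + 1)) + 2 ^ (x - 2 ^ (l - g - 2)) ≤ 2 ^ x) :
    2 ^ 2 ^ (l - 3 * g - 5) ≤ S :=
  conondet_circ hn hg hl hs₁ hw D hx C out hleaf hrej hfew

end Pool.Agent.Results.MP_d2e5f8_lc.Conondeterminism
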