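import Pool.Agent.H213R3.DomGap
import Pool.Agent.H561R2.RO.Comap

/-!
# Decomposable circuits for Partial MCSP

A decomposable circuit (`Circ`) reads the entries `T x` in `{0,1,*}` of a partial truth table. It
has unrestricted OR gates (nondeterminism), AND gates whose inputs depend on disjoint sets of
entries, and decision gates (with three outcomes) whose entry is not used below. The leaves may be
arbitrary functions of `N / (log N) ^ O(1)` entries, where `N = 2 ^ n`. Nondeterministic read-once
branching programs are a special case.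

We show that such circuits for Partial MCSP with threshold `s` need `2 ^ (s / (log N) ^ O(1))`
gates, for all `s` from `(log N) ^ O(1)` to `N / (log N) ^ O(1)`, even if they only have to tell
threshold `s` from threshold `γ s` for `γ = (log N) ^ O(1)`, and only on total tables.
-/

namespace Pool.Agent.Results.MP_d2e5f8_lc.ReadOnceNondet

open Pool.Agent.H589R2 Pool.Agent.H561R2.RO Pool.Agent.H213R3

theorem result (n k m g s₁ s₂ S : ℕ) (hn : n ≤ 2 ^ k) (hm : 15 * k + 9 * g + 79 ≤ m)
    (hmn : m + 32 * k + 16 * g + 64 ≤ n)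
    (hs₁ : 2 ^ (m + 4 * k + 2 * g + 20) ≤ s₁) (hs₂ : s₂ ≤ 2 ^ (m + 4 * k + 3 * g + 20))
    (C : Circ (Fin n → Bool) (Option Bool) S) (out : Fin S)
    (hleaf : C.LeafLE (2 ^ (n - (10 * k + 6 * g + 52))))
    (hyes : ∀ f : (Fin n → Bool) → Bool, PartialMCSP n s₁ (fun x => some (f x)) →
      C.Acc (fun x => some (f x)) out)
    (hno : ∀ f : (Fin n → Bool) → Bool, ¬PartialMCSP n s₂ (fun x => some (f x)) →
      ¬C.Acc (fun x => some (f x)) out) :
    2 ^ 2 ^ (m - (15 * k + 9 * g + 79)) ≤ S := by
  refine circ_lower_bound hn hm hmn hs₁ hs₂ (C.comap some) out (Circ.comap_leafLE hleaf)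
    (fun f hf => ?_) (fun f hf => ?_)
  · obtain ⟨B, hB, rfl⟩ := hf
    exact Circ.comap_acc.2 (hyes _ ⟨B, hB, fun x b hx => by simpa using hx⟩)
  · by_contra hcon
    refine hno f (fun h => hcon ?_) (Circ.comap_acc.1 hf)
    obtain ⟨B, hB, hBf⟩ := h
    exact ⟨B, hB, funext fun x => hBf x (f x) rfl⟩

end Pool.Agent.Results.MP_d2e5f8_lc.ReadOnceNondet
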